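import Mathlib

set_option autoImplicit false

/-!
# Finite automata with control languages and context-sensitive languages
-/

namespace Pool.Agent.R574.CA

/-- A family of languages: for every alphabet `A` a set of languages over `A`. -/
abbrev Fam : Type 1 := (A : Type) → Set (Set (List A))

/-- A finite automaton with states `Q` and input alphabet `A`: a finite set of rules `p a → q`,
written `(p, a, q)`, where `a = none` stands for the empty word; a start state and final states. -/
structure FA (Q A : Type) where
  rules : Set (Q × Option A × Q)
  finite_rules : rules.Finite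
  start : Q
  final : Set Q

/-- `Run M p w α q`: there are moves from the configuration `(pw, ε)` to `(q, α)`; every move by a
rule `p a → q` records the state `p` being left. -/
inductive FA.Run {Q A : Type} (M : FA Q A) : Q → List A → List Q → Q → Prop
  | nil (p : Q) : Run M p [] [] p
  | read {p q r : Q} {a : A} {w : List A} {α : List Q} (h : (p, some a, q) ∈ M.rules)
      (h' : Run M q w α r) : Run M p (a :: w) (p :: α) r
  | eps {p q r : Q} {w : List A} {α : List Q} (h : (p, none, q) ∈ M.rules)
      (h' : Run M q w α r) : Run M p w (p :: α) r

/-- The language of the automaton `M` with control language `C`: the words `w` for which `M` has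
moves from `(s w, ε)` to `(f, α)` with `f` final and `α ∈ C`. -/
def FA.language {Q A : Type} (M : FA Q A) (C : Set (List Q)) : Set (List A) :=
  {w | ∃ f ∈ M.final, ∃ α ∈ C, M.Run M.start w α f}

/-- `SCFA 𝓛`: the languages of finite automata (finitely many states) with control languages
in the family `𝓛`. -/
def SCFA (𝓛 : Fam) : Fam :=
  fun A => {L | ∃ (Q : Type) (_ : Finite Q) (M : FA Q A) (C : Set (List Q)),
    C ∈ 𝓛 Q ∧ L = M.language C}

/-- A noncontracting grammar with terminals `A`. -/
structure NCG (A : Type) where
  N : Type
  finite_N : Finite N
  start : N
  /-- the rules `l → r` -/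
  rules : Set (List (Symbol A N) × List (Symbol A N))
  finite_rules : rules.Finite
  noncontracting : ∀ ρ ∈ rules, ρ.1.length ≤ ρ.2.length
  /-- left-hand sides contain a nonterminal -/
  proper : ∀ ρ ∈ rules, ∃ B : N, Symbol.nonterminal B ∈ ρ.1

/-- One derivation step. -/
def NCG.Step {A : Type} (G : NCG A) (u v : List (Symbol A G.N)) : Prop :=
  ∃ (x y l r : List (Symbol A G.N)), (l, r) ∈ G.rules ∧ u = x ++ l ++ y ∧ v = x ++ r ++ y

/-- The language of a noncontracting grammar. -/
def NCG.language {A : Type} (G : NCG A) : Set (List A) :=
  {w | Relation.ReflTransGen G.Step [Symbol.nonterminal G.start] (w.map Symbol.terminal)}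

/-- The family of the context-sensitive languages: `L` is context-sensitive if a noncontracting
grammar generates `L` up to the empty word. -/
def CS : Fam := fun A => {L | ∃ G : NCG A, G.language \ {[]} = L \ {[]}}

end Pool.Agent.R574.CA
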