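import Pool.Agent.R574.CA.Pad
import Pool.Agent.W937.FG.All
import Pool.Agent.W382.FG.P1

set_option autoImplicit false

/-!
No family of control languages makes controlled finite automata characterize the
context-sensitive languages.
-/

namespace Pool.Agent.R574.CA.Main

open Relation Pool.Agent.R574.CA Pool.Agent.W937.FG

theorem of_prog (T K : Type) [DecidableEq K] (p : Prog T K) :
    ∃ G : NCG (Option T), ∀ w : List T,
      (∃ v ∈ G.language, v.reduceOption = w) ↔ Exec true p (fun _ => 0) w (fun _ => 0) := by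
  obtain ⟨K', dK', fK', p', hp'⟩ := Pool.Agent.W52.FG.G3.main T K p
  obtain ⟨Q, fQ, q0, qf, δ, hδ, hQ⟩ := Pool.Agent.W937.FG.G1.main T K' p'
  refine ⟨Pad.G δ q0 qf hδ, fun w => ?_⟩
  rw [hp' w, hQ true]
  constructor
  · rintro ⟨v, hv, rfl⟩
    exact Pad.sound q0 qf hδ v hv
  · exact Pad.complete q0 qf hδ w

theorem of_primrec (f : ℕ → ℕ) (hf : Nat.Primrec f) :
    ∃ G : NCG (Option (Fin 3)), ∀ m : ℕ,
      (∃ v ∈ G.language, v.reduceOption = abc m) ↔ f m = 1 := by
  obtain ⟨M, b, hb, hM1, hM2⟩ := hC4 f hf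
  obtain ⟨k, hk⟩ := exists_lt_ack_of_nat_primrec hb
  obtain ⟨H, hGen⟩ := of_prog (Fin 3) Reg (top k M)
  refine ⟨H, fun m => ?_⟩
  rw [hGen (abc m)]
  refine ⟨fun h => hTOPS f M k hM1 m h, fun h => hTOPC f b M k hM2 m ?_ h⟩
  have h1 : b m ≤ ack k (m + 1) := (hk m).le.trans (ack_mono_right k (Nat.le_succ m))
  exact h1.trans (hF.2.2.2.2.2 k (m + 1) (by omega))

theorem gGen_iff {A : Type} (G : NCG A) (w : List A) : w ∈ G.language ↔
    GGen ((fun ρ : List (Symbol A G.N) × List (Symbol A G.N) => ((ρ.1, ρ.2, ∅) : GRule A G.N)) ''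
      G.rules) G.start w := by
  have hst : G.Step = GStep ((fun ρ : List (Symbol A G.N) × List (Symbol A G.N) =>
      ((ρ.1, ρ.2, ∅) : GRule A G.N)) '' G.rules) := by
    funext α β
    apply propext
    constructor
    · rintro ⟨x, y, l, r, h, h1, h2⟩
      exact ⟨x, y, l, r, ∅, ⟨(l, r), h, rfl⟩, h1, h2, by simp⟩
    · rintro ⟨x, y, l, r, F, ⟨⟨l', r'⟩, h, he⟩, h1, h2, _⟩
      simp only [Prod.mk.injEq] at he
      obtain ⟨rfl, rfl, rfl⟩ := he
      exact ⟨x, y, l', r', h, h1, h2⟩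
  unfold NCG.language GGen
  rw [hst]
  rfl

/-- a context-sensitive language whose image under the erasing of one letter is not
context-sensitive, up to the empty word -/
theorem exists_cs : ∃ G : NCG (Option (Fin 3)), ∀ L : Set (List (Fin 3)),
    (∀ w ≠ [], w ∈ L ↔ ∃ v ∈ G.language, v.reduceOption = w) → L ∉ CS (Fin 3) := by
  obtain ⟨f, hf, hdiag⟩ := hP2 Pool.Agent.W382.FG.P1.main
  obtain ⟨G, hG⟩ := of_primrec f hf
  refine ⟨G, ?_⟩
  rintro L hL ⟨H, hH⟩
  have := H.finite_N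
  obtain ⟨m, hm, hd⟩ := hdiag H.N H.start _ (H.finite_rules.image
    (fun ρ : List (Symbol (Fin 3) H.N) × List (Symbol (Fin 3) H.N) =>
      ((ρ.1, ρ.2, ∅) : GRule (Fin 3) H.N))) (by
    rintro _ ⟨ρ, hρ, rfl⟩
    exact H.noncontracting ρ hρ)
  rw [← gGen_iff, ← hG m] at hd
  have hne : abc m ≠ [] := by
    intro h
    have := congrArg List.length h
    simp [abc] at this
    omega
  have h1 : abc m ∈ H.language ↔ abc m ∈ L := by
    constructor
    · intro h
      have h2 : abc m ∈ H.language \ {[]} := ⟨h, hne⟩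
      rw [hH] at h2
      exact h2.1
    · intro h
      have h2 : abc m ∈ L \ {[]} := ⟨h, hne⟩
      rw [← hH] at h2
      exact h2.1
  rw [h1, hL _ hne] at hd
  exact iff_not_self hd

/-- erase one letter of the input alphabet: reading it becomes a move on the empty word -/
def erase {Q T : Type} (M : FA Q (Option T)) : FA Q T where
  rules := (fun r : Q × Option (Option T) × Q => (r.1, r.2.1.join, r.2.2)) '' M.rules
  finite_rules := M.finite_rules.image _
  start := M.start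
  final := M.final

theorem run_erase {Q T : Type} (M : FA Q (Option T)) (p q : Q) (w : List T) (α : List Q) :
    (erase M).Run p w α q ↔ ∃ v : List (Option T), v.reduceOption = w ∧ M.Run p v α q := by
  constructor
  · intro h
    induction h with
    | nil p => exact ⟨[], rfl, FA.Run.nil p⟩
    | @read p q r a w α h _ ih =>
      obtain ⟨v, h1, h2⟩ := ih
      obtain ⟨⟨p', x, q'⟩, h3, h4⟩ := h
      simp only [Prod.mk.injEq] at h4
      obtain ⟨rfl, h5, rfl⟩ := h4
      rw [Option.join_eq_some_iff] at h5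
      subst h5
      exact ⟨some a :: v, by simp [h1], FA.Run.read h3 h2⟩
    | @eps p q r w α h _ ih =>
      obtain ⟨v, h1, h2⟩ := ih
      obtain ⟨⟨p', x, q'⟩, h3, h4⟩ := h
      simp only [Prod.mk.injEq] at h4
      obtain ⟨rfl, h5, rfl⟩ := h4
      cases x with
      | none => exact ⟨v, h1, FA.Run.eps h3 h2⟩
      | some x =>
        cases x with
        | none => exact ⟨none :: v, by simp [h1], FA.Run.read h3 h2⟩
        | some a => simp at h5
  · rintro ⟨v, rfl, h⟩
    induction h with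
    | nil p => exact FA.Run.nil p
    | @read p q r a v α h _ ih =>
      cases a with
      | none =>
        rw [List.reduceOption_cons_of_none]
        exact FA.Run.eps ⟨_, h, rfl⟩ ih
      | some a =>
        rw [List.reduceOption_cons_of_some]
        exact FA.Run.read ⟨_, h, rfl⟩ ih
    | @eps p q r v α h _ ih => exact FA.Run.eps ⟨_, h, rfl⟩ ih

theorem language_erase {Q T : Type} (M : FA Q (Option T)) (C : Set (List Q)) (w : List T) :
    w ∈ (erase M).language C ↔ ∃ v ∈ M.language C, v.reduceOption = w := by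
  constructor
  · rintro ⟨f, hf, α, hα, h⟩
    obtain ⟨v, h1, h2⟩ := (run_erase M _ _ _ _).mp h
    exact ⟨v, ⟨f, hf, α, hα, h2⟩, h1⟩
  · rintro ⟨v, ⟨f, hf, α, hα, h2⟩, h1⟩
    exact ⟨f, hf, α, hα, (run_erase M _ _ _ _).mpr ⟨v, h1, h2⟩⟩

theorem main : ∃ L₀ ∈ CS (Option (Fin 3)), ∀ (𝓛 : Fam), ∀ L ∈ SCFA 𝓛 (Option (Fin 3)),
    L \ {[]} = L₀ \ {[]} → ∃ L' ∈ SCFA 𝓛 (Fin 3), L' ∉ CS (Fin 3) := by
  obtain ⟨G, hG⟩ := exists_cs
  refine ⟨G.language, ⟨G, rfl⟩, ?_⟩
  rintro 𝓛 L ⟨Q, fQ, M, C, hC, rfl⟩ hL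
  refine ⟨(erase M).language C, ⟨Q, fQ, erase M, C, hC, rfl⟩, hG _ ?_⟩
  intro w hw
  rw [language_erase]
  constructor
  · rintro ⟨v, h1, h2⟩
    refine ⟨v, ?_, h2⟩
    have h3 : v ∈ M.language C \ {[]} := by
      refine ⟨h1, ?_⟩
      rintro rfl
      exact hw h2.symm
    rw [hL] at h3
    exact h3.1
  · rintro ⟨v, h1, h2⟩
    refine ⟨v, ?_, h2⟩
    have h3 : v ∈ G.language \ {[]} := by
      refine ⟨h1, ?_⟩
      rintro rfl
      exact hw h2.symm
    rw [← hL] at h3
    exact h3.1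

theorem no_family (𝓛 : Fam) :
    ¬ ∀ (A : Type) [Finite A] (L : Set (List A)), L ∈ SCFA 𝓛 A ↔ L ∈ CS A := by
  intro h
  obtain ⟨L₀, h1, h2⟩ := main
  obtain ⟨L', h3, h4⟩ := h2 𝓛 L₀ ((h _ L₀).mpr h1) rfl
  exact h4 ((h _ L').mp h3)

end Pool.Agent.R574.CA.Main
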