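import Pool.Agent.R574.CA.Defs
import Pool.Agent.W937.FG.Defs

set_option autoImplicit false

/-!
A noncontracting grammar which generates padded versions of the words accepted by an automaton with
counters and decrement errors.
-/

namespace Pool.Agent.R574.CA.Pad

open Relation Pool.Agent.R574.CA
open Pool.Agent.W937.FG (Op ExecO)

variable {T K Q : Type} [DecidableEq K]

theorem path_trans {e : Bool} {δ : Set (Q × Op T K × Q)} {q q' q'' : Q} {s s' s'' : K → ℕ}
    {w x : List T} (h1 : Pool.Agent.W937.FG.Path e δ q s w q' s')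
    (h2 : Pool.Agent.W937.FG.Path e δ q' s' x q'' s'') :
    Pool.Agent.W937.FG.Path e δ q s (w ++ x) q'' s'' := by
  induction h1 with
  | refl q s => simpa using h2
  | step hδ h3 _ ih =>
    rw [List.append_assoc]
    exact Pool.Agent.W937.FG.Path.step hδ h3 (ih h2)

theorem path_snoc {e : Bool} {δ : Set (Q × Op T K × Q)} {q q' q'' : Q} {s s' s'' : K → ℕ}
    {w x : List T} {o : Op T K} (h1 : Pool.Agent.W937.FG.Path e δ q s w q' s')
    (hδ : (q', o, q'') ∈ δ) (h2 : ExecO e o s' x s'') :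
    Pool.Agent.W937.FG.Path e δ q s (w ++ x) q'' s'' := by
  refine path_trans h1 ?_
  have := Pool.Agent.W937.FG.Path.step hδ h2 (Pool.Agent.W937.FG.Path.refl q'' s'')
  simpa using this

/-- the nonterminals -/
inductive NT (K Q E : Type)
  | start
  | cnt (i : K)
  | st (q : Q)
  | wa (d : E)
  | wk (d : E)
  | re (d : E)
  | fin
  | en

section gram

variable (δ : Set (Q × Op T K × Q)) (q0 qf : Q)

abbrev E : Type := {d // d ∈ δ}

abbrev S : Type := Symbol (Option T) (NT K Q (E δ))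

/-- a nonterminal symbol -/
abbrev n (x : NT K Q (E δ)) : S δ := Symbol.nonterminal x

/-- letters of the counter region; `none` is the padding letter -/
def reg (x : Option K) : S δ :=
  match x with
  | none => Symbol.terminal none
  | some i => Symbol.nonterminal (NT.cnt i)

/-- the result of a transition -/
def res (d : E δ) : List (S δ) :=
  match d.1.2.1 with
  | Op.nop => [n δ (NT.st d.1.2.2)]
  | Op.inc i => [n δ (NT.st d.1.2.2), n δ (NT.cnt i)]
  | Op.out c => [Symbol.terminal (some c), n δ (NT.st d.1.2.2)]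
  | _ => [n δ (NT.wa d), n δ (NT.wk d)]

/-- the rules -/
def rules : Set (List (S δ) × List (S δ)) :=
  {r | r = ([n δ NT.start], [n δ (NT.st q0), n δ NT.en]) ∨
    (∃ d : E δ, r = ([n δ (NT.st d.1.1)], res δ d)) ∨
    (∃ (d : E δ) (x : Option K), (∀ i, d.1.2.1 = Op.zero i → x ≠ some i) ∧
      r = ([n δ (NT.wk d), reg δ x], [reg δ x, n δ (NT.wk d)])) ∨
    (∃ (d : E δ) (i : K), d.1.2.1 = Op.dec i ∧
      r = ([n δ (NT.wk d), reg δ (some i)], [n δ (NT.re d), reg δ none])) ∨
    (∃ d : E δ, r = ([n δ (NT.wk d), n δ NT.en], [n δ (NT.re d), n δ NT.en])) ∨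
    (∃ (d : E δ) (x : Option K),
      r = ([reg δ x, n δ (NT.re d)], [n δ (NT.re d), reg δ x])) ∨
    (∃ d : E δ, r = ([n δ (NT.wa d), n δ (NT.re d)], [n δ (NT.st d.1.2.2), reg δ none])) ∨
    r = ([n δ (NT.st qf)], [n δ NT.fin]) ∨
    r = ([n δ NT.fin, reg δ none], [reg δ none, n δ NT.fin]) ∨
    r = ([n δ NT.fin, n δ NT.en], [reg δ none, reg δ none])}

omit [DecidableEq K] in
theorem finite_NT [Finite K] [Finite Q] (hδ : δ.Finite) : Finite (NT K Q (E δ)) := by
  have h1 : Finite (E δ) := hδ.to_subtype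
  let f : NT K Q (E δ) → (Fin 3 ⊕ K ⊕ Q) ⊕ (E δ ⊕ E δ ⊕ E δ)
    | NT.start => Sum.inl (Sum.inl 0)
    | NT.fin => Sum.inl (Sum.inl 1)
    | NT.en => Sum.inl (Sum.inl 2)
    | NT.cnt i => Sum.inl (Sum.inr (Sum.inl i))
    | NT.st q => Sum.inl (Sum.inr (Sum.inr q))
    | NT.wa d => Sum.inr (Sum.inl d)
    | NT.wk d => Sum.inr (Sum.inr (Sum.inl d))
    | NT.re d => Sum.inr (Sum.inr (Sum.inr d))
  refine Finite.of_injective f ?_
  intro a b h
  cases a <;> cases b <;> simp [f] at h ⊢ <;> exact h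

omit [DecidableEq K] in
theorem finite_rules [Finite K] [Finite Q] (hδ : δ.Finite) : (rules δ q0 qf).Finite := by
  have h1 : Finite (E δ) := hδ.to_subtype
  have e1 := Set.finite_singleton
    (([n δ NT.start], [n δ (NT.st q0), n δ NT.en]) : List (S δ) × List (S δ))
  have e2 := Set.finite_range (fun d : E δ =>
    (([n δ (NT.st d.1.1)], res δ d) : List (S δ) × List (S δ)))
  have e3 := Set.finite_range (fun i : E δ × Option K =>
    (([n δ (NT.wk i.1), reg δ i.2], [reg δ i.2, n δ (NT.wk i.1)]) : List (S δ) × List (S δ)))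
  have e4 := Set.finite_range (fun i : E δ × K =>
    (([n δ (NT.wk i.1), reg δ (some i.2)], [n δ (NT.re i.1), reg δ none]) :
      List (S δ) × List (S δ)))
  have e5 := Set.finite_range (fun d : E δ =>
    (([n δ (NT.wk d), n δ NT.en], [n δ (NT.re d), n δ NT.en]) : List (S δ) × List (S δ)))
  have e6 := Set.finite_range (fun i : E δ × Option K =>
    (([reg δ i.2, n δ (NT.re i.1)], [n δ (NT.re i.1), reg δ i.2]) : List (S δ) × List (S δ)))
  have e7 := Set.finite_range (fun d : E δ =>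
    (([n δ (NT.wa d), n δ (NT.re d)], [n δ (NT.st d.1.2.2), reg δ none]) :
      List (S δ) × List (S δ)))
  have e8 := Set.finite_singleton
    (([n δ (NT.st qf)], [n δ NT.fin]) : List (S δ) × List (S δ))
  have e9 := Set.finite_singleton
    (([n δ NT.fin, reg δ none], [reg δ none, n δ NT.fin]) : List (S δ) × List (S δ))
  have e10 := Set.finite_singleton
    (([n δ NT.fin, n δ NT.en], [reg δ none, reg δ none]) : List (S δ) × List (S δ))
  refine (((((((((e1.union e2).union e3).union e4).union e5).union e6).union e7).union e8).union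
    e9).union e10).subset ?_
  rintro r (rfl | ⟨d, rfl⟩ | ⟨d, x, _, rfl⟩ | ⟨d, i, _, rfl⟩ | ⟨d, rfl⟩ | ⟨d, x, rfl⟩ | ⟨d, rfl⟩ |
    rfl | rfl | rfl)
  · exact Or.inl (Or.inl (Or.inl (Or.inl (Or.inl (Or.inl (Or.inl (Or.inl (Or.inl rfl))))))))
  · exact Or.inl (Or.inl (Or.inl (Or.inl (Or.inl (Or.inl (Or.inl (Or.inl (Or.inr ⟨d, rfl⟩))))))))
  · exact Or.inl (Or.inl (Or.inl (Or.inl (Or.inl (Or.inl (Or.inl (Or.inr ⟨(d, x), rfl⟩)))))))
  · exact Or.inl (Or.inl (Or.inl (Or.inl (Or.inl (Or.inl (Or.inr ⟨(d, i), rfl⟩))))))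
  · exact Or.inl (Or.inl (Or.inl (Or.inl (Or.inl (Or.inr ⟨d, rfl⟩)))))
  · exact Or.inl (Or.inl (Or.inl (Or.inl (Or.inr ⟨(d, x), rfl⟩))))
  · exact Or.inl (Or.inl (Or.inl (Or.inr ⟨d, rfl⟩)))
  · exact Or.inl (Or.inl (Or.inr rfl))
  · exact Or.inl (Or.inr rfl)
  · exact Or.inr rfl

/-- the grammar -/
def G [Finite K] [Finite Q] (hδ : δ.Finite) : NCG (Option T) where
  N := NT K Q (E δ)
  finite_N := finite_NT δ hδ
  start := NT.start
  rules := rules δ q0 qf
  finite_rules := finite_rules δ q0 qf hδ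
  noncontracting := by
    rintro r (rfl | ⟨d, rfl⟩ | ⟨d, x, _, rfl⟩ | ⟨d, i, _, rfl⟩ | ⟨d, rfl⟩ | ⟨d, x, rfl⟩ | ⟨d, rfl⟩ |
      rfl | rfl | rfl) <;> simp
    unfold res
    split <;> simp
  proper := by
    rintro r (rfl | ⟨d, rfl⟩ | ⟨d, x, _, rfl⟩ | ⟨d, i, _, rfl⟩ | ⟨d, rfl⟩ | ⟨d, x, rfl⟩ | ⟨d, rfl⟩ |
      rfl | rfl | rfl)
    · exact ⟨NT.start, by simp⟩
    · exact ⟨NT.st d.1.1, by simp⟩
    · exact ⟨NT.wk d, by simp⟩
    · exact ⟨NT.wk d, by simp⟩
    · exact ⟨NT.wk d, by simp⟩
    · exact ⟨NT.re d, by simp⟩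
    · exact ⟨NT.re d, by simp⟩
    · exact ⟨NT.st qf, by simp⟩
    · exact ⟨NT.fin, by simp⟩
    · exact ⟨NT.fin, by simp⟩

/-- head symbols -/
def IsHd (x : S δ) : Prop :=
  x = n δ NT.start ∨ (∃ q, x = n δ (NT.st q)) ∨ (∃ d, x = n δ (NT.wk d)) ∨
    (∃ d, x = n δ (NT.re d)) ∨ x = n δ NT.fin

/-- the counter region -/
def R (r : List (Option K)) : List (S δ) := r.map (reg δ)

/-- outputs -/
def O (w : List T) : List (S δ) := w.map (fun t => Symbol.terminal (some t))

/-- padding -/
def Pd (k : ℕ) : List (S δ) := List.replicate k (Symbol.terminal none)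

variable {δ q0 qf}

omit [DecidableEq K] in
theorem not_hd_R {r : List (Option K)} : ∀ x ∈ R δ r, ¬ IsHd δ x := by
  intro x hx
  obtain ⟨X, _, rfl⟩ := List.mem_map.mp hx
  cases X <;> rintro (h | ⟨_, h⟩ | ⟨_, h⟩ | ⟨_, h⟩ | h) <;> simp [n, reg] at h

omit [DecidableEq K] in
theorem not_hd_O {w : List T} : ∀ x ∈ O δ w, ¬ IsHd δ x := by
  intro x hx
  obtain ⟨X, _, rfl⟩ := List.mem_map.mp hx
  rintro (h | ⟨_, h⟩ | ⟨_, h⟩ | ⟨_, h⟩ | h) <;> simp at h

omit [DecidableEq K] in
theorem not_hd_Pd {k : ℕ} : ∀ x ∈ Pd δ k, ¬ IsHd δ x := by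
  intro x hx
  rw [Pd, List.mem_replicate] at hx
  obtain ⟨_, rfl⟩ := hx
  rintro (h | ⟨_, h⟩ | ⟨_, h⟩ | ⟨_, h⟩ | h) <;> simp at h

omit [DecidableEq K] in
theorem not_hd_wa {d : E δ} : ¬ IsHd δ (n δ (NT.wa d)) := by
  rintro (h | ⟨_, h⟩ | ⟨_, h⟩ | ⟨_, h⟩ | h) <;> simp [n] at h

omit [DecidableEq K] in
theorem not_hd_en : ¬ IsHd δ (n δ NT.en) := by
  rintro (h | ⟨_, h⟩ | ⟨_, h⟩ | ⟨_, h⟩ | h) <;> simp [n] at h

theorem uniq {α : Type} (p : α → Prop) {a1 b1 a2 b2 : List α} {h h' : α}
    (ha : ∀ x ∈ a1, ¬ p x) (hb : ∀ x ∈ b1, ¬ p x) (hh : p h')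
    (he : a1 ++ h :: b1 = a2 ++ h' :: b2) : a1 = a2 ∧ h = h' ∧ b1 = b2 := by
  induction a1 generalizing a2 with
  | nil =>
    cases a2 with
    | nil =>
      simp only [List.nil_append, List.cons.injEq] at he
      exact ⟨rfl, he⟩
    | cons x a2 =>
      simp only [List.nil_append, List.cons_append, List.cons.injEq] at he
      exact absurd hh (hb h' (by rw [he.2]; simp))
  | cons x a1 ih =>
    cases a2 with
    | nil =>
      simp only [List.nil_append, List.cons_append, List.cons.injEq] at he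
      rw [← he.1] at hh
      exact absurd hh (ha x List.mem_cons_self)
    | cons y a2 =>
      simp only [List.cons_append, List.cons.injEq] at he
      obtain ⟨h1, h2, h3⟩ := ih (fun z hz => ha z (List.mem_cons_of_mem _ hz)) he.2
      exact ⟨by rw [he.1, h1], h2, h3⟩

/-- register contents -/
def cn (r : List (Option K)) : K → ℕ := fun i => r.count (some i)

/-- the forms: prefix, head, suffix -/
inductive Form (δ : Set (Q × Op T K × Q)) (q0 qf : Q) :
    List (S δ) → S δ → List (S δ) → Prop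
  | start : Form δ q0 qf [] (n δ NT.start) []
  | st (w : List T) (q : Q) (r : List (Option K))
      (h : Pool.Agent.W937.FG.Path true δ q0 (fun _ => 0) w q (cn r)) :
      Form δ q0 qf (O δ w) (n δ (NT.st q)) (R δ r ++ [n δ NT.en])
  | wk (w : List T) (d : E δ) (r1 r2 : List (Option K))
      (h : Pool.Agent.W937.FG.Path true δ q0 (fun _ => 0) w d.1.1 (cn (r1 ++ r2)))
      (h1 : ∀ i, d.1.2.1 = Op.zero i → some i ∉ r1)
      (h2 : ∃ i, d.1.2.1 = Op.zero i ∨ d.1.2.1 = Op.dec i) :
      Form δ q0 qf (O δ w ++ [n δ (NT.wa d)] ++ R δ r1) (n δ (NT.wk d)) (R δ r2 ++ [n δ NT.en])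
  | re (w : List T) (d : E δ) (r1 r2 : List (Option K))
      (h : Pool.Agent.W937.FG.Path true δ q0 (fun _ => 0) w d.1.2.2 (cn (r1 ++ r2))) :
      Form δ q0 qf (O δ w ++ [n δ (NT.wa d)] ++ R δ r1) (n δ (NT.re d)) (R δ r2 ++ [n δ NT.en])
  | fin (w : List T) (k : ℕ) (r : List (Option K))
      (h : Pool.Agent.W937.FG.Path true δ q0 (fun _ => 0) w qf (cn r)) :
      Form δ q0 qf (O δ w ++ Pd δ k) (n δ NT.fin) (R δ r ++ [n δ NT.en])

theorem Form.no_hd {a b : List (S δ)} {h : S δ} (hf : Form δ q0 qf a h b) :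
    (∀ x ∈ a, ¬ IsHd δ x) ∧ (∀ x ∈ b, ¬ IsHd δ x) := by
  cases hf with
  | start => exact ⟨by simp, by simp⟩
  | st w q r h =>
    refine ⟨not_hd_O, fun x hx => ?_⟩
    rcases List.mem_append.mp hx with h1 | h1
    · exact not_hd_R x h1
    · rw [List.mem_singleton.mp h1]
      exact not_hd_en
  | wk w d r1 r2 h =>
    refine ⟨fun x hx => ?_, fun x hx => ?_⟩
    · rcases List.mem_append.mp hx with h1 | h1
      · rcases List.mem_append.mp h1 with h2 | h2
        · exact not_hd_O x h2
        · rw [List.mem_singleton.mp h2]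
          exact not_hd_wa
      · exact not_hd_R x h1
    · rcases List.mem_append.mp hx with h1 | h1
      · exact not_hd_R x h1
      · rw [List.mem_singleton.mp h1]
        exact not_hd_en
  | re w d r1 r2 h =>
    refine ⟨fun x hx => ?_, fun x hx => ?_⟩
    · rcases List.mem_append.mp hx with h1 | h1
      · rcases List.mem_append.mp h1 with h2 | h2
        · exact not_hd_O x h2
        · rw [List.mem_singleton.mp h2]
          exact not_hd_wa
      · exact not_hd_R x h1
    · rcases List.mem_append.mp hx with h1 | h1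
      · exact not_hd_R x h1
      · rw [List.mem_singleton.mp h1]
        exact not_hd_en
  | fin w k r h =>
    refine ⟨fun x hx => ?_, fun x hx => ?_⟩
    · rcases List.mem_append.mp hx with h1 | h1
      · exact not_hd_O x h1
      · exact not_hd_Pd x h1
    · rcases List.mem_append.mp hx with h1 | h1
      · exact not_hd_R x h1
      · rw [List.mem_singleton.mp h1]
        exact not_hd_en

/-- the invariant -/
def Inv (δ : Set (Q × Op T K × Q)) (q0 qf : Q) (α : List (S δ)) : Prop :=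
  (∃ a h b, Form δ q0 qf a h b ∧ α = a ++ h :: b) ∨
  (∃ w k, α = O δ w ++ Pd δ k ∧
    Pool.Agent.W937.FG.Path true δ q0 (fun _ => 0) w qf (fun _ => 0))

/-- a rewriting of a word with the invariant at a head symbol -/
theorem inv_match {a b a' b' : List (S δ)} {h h' : S δ} (hf : Form δ q0 qf a h b)
    (hh : IsHd δ h') (he : a ++ h :: b = a' ++ h' :: b') : a = a' ∧ h = h' ∧ b = b' :=
  uniq (IsHd δ) hf.no_hd.1 hf.no_hd.2 hh he

theorem cn_nil : cn ([] : List (Option K)) = fun _ => 0 := by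
  funext i
  simp [cn]

theorem cn_none (a b : List (Option K)) : cn (a ++ none :: b) = cn (a ++ b) := by
  funext i
  simp [cn, List.count_cons]

theorem cn_cons (i : K) (cs : List (Option K)) :
    cn (some i :: cs) = Function.update (cn cs) i (cn cs i + 1) := by
  funext j
  by_cases h : j = i
  · subst h
    simp [cn]
  · rw [Function.update_of_ne h]
    simp only [cn]
    rw [List.count_cons_of_ne (fun h' => h (Option.some_injective _ h').symm)]

theorem cn_dec (i : K) (a b : List (Option K)) :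
    0 < cn (a ++ some i :: b) i ∧ cn (a ++ none :: b) =
      Function.update (cn (a ++ some i :: b)) i (cn (a ++ some i :: b) i - 1) := by
  refine ⟨by simp [cn], ?_⟩
  funext j
  by_cases h : j = i
  · subst h
    simp [cn, List.count_append, List.count_cons]
  · rw [Function.update_of_ne h]
    have : (some i : Option K) ≠ some j := fun h' => h (Option.some_injective _ h').symm
    simp [cn, List.count_append, List.count_cons, this]

/-- one derivation step with the rules -/
def St (δ : Set (Q × Op T K × Q)) (q0 qf : Q) (u v : List (S δ)) : Prop :=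
  ∃ (x y l r : List (S δ)), (l, r) ∈ rules δ q0 qf ∧ u = x ++ l ++ y ∧ v = x ++ r ++ y

omit [DecidableEq K] in
theorem R_cons_inv {r : List (Option K)} {x : Option K} {b : List (S δ)}
    (h : R δ r ++ [n δ NT.en] = reg δ x :: b) : ∃ r', r = x :: r' ∧ b = R δ r' ++ [n δ NT.en] := by
  cases r with
  | nil =>
    simp only [R, List.map_nil, List.nil_append, List.cons.injEq] at h
    cases x <;> simp [reg, n] at h
  | cons y r =>
    simp only [R, List.map_cons, List.cons_append, List.cons.injEq] at h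
    have h1 : y = x := by
      have := h.1
      cases x <;> cases y <;> simp [reg] at this ⊢
      exact this
    subst h1
    exact ⟨r, rfl, h.2.symm⟩

omit [DecidableEq K] in
theorem R_en_inv {r : List (Option K)} {b : List (S δ)}
    (h : R δ r ++ [n δ NT.en] = n δ NT.en :: b) : r = [] ∧ b = [] := by
  cases r with
  | nil => simpa [R] using h
  | cons y r =>
    simp only [R, List.map_cons, List.cons_append, List.cons.injEq] at h
    cases y <;> simp [reg, n] at h

omit [DecidableEq K] in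
theorem snoc_inv {a c : List (S δ)} {r : List (Option K)} {x : Option K} {d : E δ}
    (h : a ++ [n δ (NT.wa d)] ++ R δ r = c ++ [reg δ x]) :
    ∃ r', r = r' ++ [x] ∧ c = a ++ [n δ (NT.wa d)] ++ R δ r' := by
  rcases List.eq_nil_or_concat' r with rfl | ⟨r', y, rfl⟩
  · simp only [R, List.map_nil, List.append_nil] at h
    obtain ⟨_, h1⟩ := List.append_inj' h rfl
    cases x <;> simp [reg, n] at h1
  · simp only [R, List.map_append, List.map_cons, List.map_nil] at h
    rw [← List.append_assoc] at h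
    obtain ⟨h1, h2⟩ := List.append_inj' h rfl
    have h3 : y = x := by
      simp only [List.cons.injEq, and_true] at h2
      cases x <;> cases y <;> simp [reg] at h2 ⊢
      exact h2
    subst h3
    exact ⟨r', rfl, h1.symm⟩

omit [DecidableEq K] in
theorem snoc_inv' {a c : List (S δ)} {r : List (Option K)} {d e : E δ}
    (h : a ++ [n δ (NT.wa d)] ++ R δ r = c ++ [n δ (NT.wa e)]) :
    r = [] ∧ d = e ∧ c = a := by
  rcases List.eq_nil_or_concat' r with rfl | ⟨r', y, rfl⟩
  · simp only [R, List.map_nil, List.append_nil] at h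
    obtain ⟨h1, h2⟩ := List.append_inj' h rfl
    simp only [n, List.cons.injEq, Symbol.nonterminal.injEq, NT.wa.injEq, and_true] at h2
    exact ⟨rfl, h2, h1.symm⟩
  · simp only [R, List.map_append, List.map_cons, List.map_nil] at h
    rw [← List.append_assoc] at h
    obtain ⟨h1, h2⟩ := List.append_inj' h rfl
    cases y <;> simp [reg, n] at h2

theorem inv_step {α β : List (S δ)} (hα : Inv δ q0 qf α) (h : St δ q0 qf α β) :
    Inv δ q0 qf β := by
  obtain ⟨a', b', l, r, hr, rfl, rfl⟩ := h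
  rcases hα with ⟨a, h, b, hf, he⟩ | ⟨w, k, he, hp⟩
  swap
  · -- no head in the word, but a head in the left-hand side
    exfalso
    have h1 : ∃ x ∈ l, IsHd δ x := by
      rcases hr with h | ⟨d, h⟩ | ⟨d, x, _, h⟩ | ⟨d, i, _, h⟩ | ⟨d, h⟩ | ⟨d, x, h⟩ | ⟨d, h⟩ |
        h | h | h <;> simp only [Prod.mk.injEq] at h <;> obtain ⟨rfl, rfl⟩ := h
      · exact ⟨_, by simp, Or.inl rfl⟩
      · exact ⟨n δ (NT.st d.1.1), by simp, Or.inr (Or.inl ⟨_, rfl⟩)⟩
      · exact ⟨n δ (NT.wk d), by simp, Or.inr (Or.inr (Or.inl ⟨_, rfl⟩))⟩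
      · exact ⟨n δ (NT.wk d), by simp, Or.inr (Or.inr (Or.inl ⟨_, rfl⟩))⟩
      · exact ⟨n δ (NT.wk d), by simp, Or.inr (Or.inr (Or.inl ⟨_, rfl⟩))⟩
      · exact ⟨n δ (NT.re d), by simp, Or.inr (Or.inr (Or.inr (Or.inl ⟨_, rfl⟩)))⟩
      · exact ⟨n δ (NT.re d), by simp, Or.inr (Or.inr (Or.inr (Or.inl ⟨_, rfl⟩)))⟩
      · exact ⟨n δ (NT.st qf), by simp, Or.inr (Or.inl ⟨_, rfl⟩)⟩
      · exact ⟨n δ NT.fin, by simp, Or.inr (Or.inr (Or.inr (Or.inr rfl)))⟩
      · exact ⟨n δ NT.fin, by simp, Or.inr (Or.inr (Or.inr (Or.inr rfl)))⟩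
    obtain ⟨x, h2, h3⟩ := h1
    have h4 : x ∈ O δ w ++ Pd δ k := by
      rw [← he]
      simp [h2]
    rcases List.mem_append.mp h4 with h5 | h5
    · exact not_hd_O x h5 h3
    · exact not_hd_Pd x h5 h3
  rcases hr with h' | ⟨d, h'⟩ | ⟨d, x, hx, h'⟩ | ⟨d, i, hd, h'⟩ | ⟨d, h'⟩ | ⟨d, x, h'⟩ |
    ⟨d, h'⟩ | h' | h' | h' <;> simp only [Prod.mk.injEq] at h' <;> obtain ⟨rfl, rfl⟩ := h'
  · -- start
    have e0 : a' ++ [n δ NT.start] ++ b' = a' ++ n δ NT.start :: b' := by simp
    rw [e0] at he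
    obtain ⟨rfl, h2, rfl⟩ := inv_match hf (Or.inl rfl) he.symm
    cases hf with
    | start =>
      refine Or.inl ⟨_, _, _, Form.st [] q0 [] ?_, by simp [O, R]⟩
      rw [cn_nil]
      exact Pool.Agent.W937.FG.Path.refl _ _
    | st w q r h => simp [n] at h2
    | wk w d r1 r2 h => simp [n] at h2
    | re w d r1 r2 h => simp [n] at h2
    | fin w k r h => simp [n] at h2
  · -- a transition
    have e0 : a' ++ [n δ (NT.st d.1.1)] ++ b' = a' ++ n δ (NT.st d.1.1) :: b' := by simp
    rw [e0] at he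
    obtain ⟨rfl, h2, rfl⟩ := inv_match hf (Or.inr (Or.inl ⟨_, rfl⟩)) he.symm
    cases hf with
    | start => simp [n] at h2
    | wk w d r1 r2 h => simp [n] at h2
    | re w d r1 r2 h => simp [n] at h2
    | fin w k r h => simp [n] at h2
    | st w q r h =>
      simp only [n, Symbol.nonterminal.injEq, NT.st.injEq] at h2
      subst h2
      obtain ⟨⟨q1, o, q2⟩, hd⟩ := d
      cases o with
      | nop =>
        refine Or.inl ⟨_, _, _, Form.st w q2 r ?_, by simp [res]⟩
        have := path_snoc h hd (show ExecO true Op.nop (cn r) [] (cn r) from ⟨rfl, rfl⟩)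
        simpa using this
      | inc i =>
        refine Or.inl ⟨_, _, _, Form.st w q2 (some i :: r) ?_, by simp [res, R, reg]⟩
        have := path_snoc h hd (show ExecO true (Op.inc i) (cn r) [] (cn (some i :: r)) from
          ⟨rfl, cn_cons i r⟩)
        simpa using this
      | dec i =>
        refine Or.inl ⟨_, _, _, Form.wk w ⟨(q1, Op.dec i, q2), hd⟩ [] r (by simpa using h)
          (by simp) ⟨i, Or.inr rfl⟩, by simp [res, R]⟩
      | zero i =>
        refine Or.inl ⟨_, _, _, Form.wk w ⟨(q1, Op.zero i, q2), hd⟩ [] r (by simpa using h)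
          (by simp) ⟨i, Or.inl rfl⟩, by simp [res, R]⟩
      | out c =>
        refine Or.inl ⟨_, _, _, Form.st (w ++ [c]) q2 r ?_, by simp [res, O]⟩
        exact path_snoc h hd (show ExecO true (Op.out c) (cn r) [c] (cn r) from ⟨rfl, rfl⟩)
  · -- the walker moves
    have e0 : a' ++ [n δ (NT.wk d), reg δ x] ++ b' = a' ++ n δ (NT.wk d) :: (reg δ x :: b') := by
      simp
    rw [e0] at he
    obtain ⟨rfl, h2, h3⟩ := inv_match hf (Or.inr (Or.inr (Or.inl ⟨_, rfl⟩))) he.symm
    cases hf with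
    | start => simp [n] at h2
    | st w q r h => simp [n] at h2
    | re w d r1 r2 h => simp [n] at h2
    | fin w k r h => simp [n] at h2
    | wk w d' r1 r2 h h4 h5 =>
      simp only [n, Symbol.nonterminal.injEq, NT.wk.injEq] at h2
      subst h2
      obtain ⟨r', rfl, rfl⟩ := R_cons_inv h3
      refine Or.inl ⟨_, _, _, Form.wk w d' (r1 ++ [x]) r' (by simpa using h) ?_ h5, by simp [R]⟩
      intro i hi hm
      rcases List.mem_append.mp hm with h6 | h6
      · exact h4 i hi h6
      · exact hx i hi (List.mem_singleton.mp h6).symm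
  · -- a decrement
    have e0 : a' ++ [n δ (NT.wk d), reg δ (some i)] ++ b' =
      a' ++ n δ (NT.wk d) :: (reg δ (some i) :: b') := by simp
    rw [e0] at he
    obtain ⟨rfl, h2, h3⟩ := inv_match hf (Or.inr (Or.inr (Or.inl ⟨_, rfl⟩))) he.symm
    cases hf with
    | start => simp [n] at h2
    | st w q r h => simp [n] at h2
    | re w d r1 r2 h => simp [n] at h2
    | fin w k r h => simp [n] at h2
    | wk w d' r1 r2 h h4 h5 =>
      simp only [n, Symbol.nonterminal.injEq, NT.wk.injEq] at h2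
      subst h2
      obtain ⟨r', rfl, rfl⟩ := R_cons_inv h3
      obtain ⟨⟨q1, o, q2⟩, hd'⟩ := d'
      have hd2 : o = Op.dec i := hd
      subst hd2
      refine Or.inl ⟨_, _, _, Form.re w ⟨(q1, Op.dec i, q2), hd'⟩ r1 (none :: r') ?_,
        by simp [R]⟩
      obtain ⟨h6, h7⟩ := cn_dec i r1 r'
      have := path_snoc h hd' (show ExecO true (Op.dec i) _ [] (cn (r1 ++ none :: r')) from
        ⟨rfl, Or.inl ⟨h6, h7⟩⟩)
      simpa using this
  · -- the walker reaches the end
    have e0 : a' ++ [n δ (NT.wk d), n δ NT.en] ++ b' =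
      a' ++ n δ (NT.wk d) :: (n δ NT.en :: b') := by simp
    rw [e0] at he
    obtain ⟨rfl, h2, h3⟩ := inv_match hf (Or.inr (Or.inr (Or.inl ⟨_, rfl⟩))) he.symm
    cases hf with
    | start => simp [n] at h2
    | st w q r h => simp [n] at h2
    | re w d r1 r2 h => simp [n] at h2
    | fin w k r h => simp [n] at h2
    | wk w d' r1 r2 h h4 h5 =>
      simp only [n, Symbol.nonterminal.injEq, NT.wk.injEq] at h2
      subst h2
      obtain ⟨rfl, rfl⟩ := R_en_inv h3
      obtain ⟨⟨q1, o, q2⟩, hd'⟩ := d'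
      obtain ⟨i, h5⟩ := h5
      refine Or.inl ⟨_, _, _, Form.re w ⟨(q1, o, q2), hd'⟩ r1 [] ?_, by simp [R]⟩
      have hex : ExecO true o (cn (r1 ++ [])) [] (cn (r1 ++ [])) := by
        rcases h5 with h5 | h5
        · have h6 : o = Op.zero i := h5
          subst h6
          refine ⟨rfl, ?_, rfl⟩
          have := h4 i rfl
          simp [cn, List.count_eq_zero.mpr this]
        · have h6 : o = Op.dec i := h5
          subst h6
          exact ⟨rfl, Or.inr ⟨rfl, rfl⟩⟩
      have := path_snoc h hd' hex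
      simpa using this
  · -- the return walk
    have e0 : a' ++ [reg δ x, n δ (NT.re d)] ++ b' =
      (a' ++ [reg δ x]) ++ n δ (NT.re d) :: b' := by simp
    rw [e0] at he
    obtain ⟨h1, h2, h3⟩ := inv_match hf (Or.inr (Or.inr (Or.inr (Or.inl ⟨_, rfl⟩)))) he.symm
    cases hf with
    | start => simp [n] at h2
    | st w q r h => simp [n] at h2
    | wk w d r1 r2 h => simp [n] at h2
    | fin w k r h => simp [n] at h2
    | re w d' r1 r2 h =>
      simp only [n, Symbol.nonterminal.injEq, NT.re.injEq] at h2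
      subst h2
      subst h3
      obtain ⟨r', rfl, rfl⟩ := snoc_inv h1
      exact Or.inl ⟨_, _, _, Form.re w d' r' (x :: r2) (by simpa using h), by simp [R]⟩
  · -- the return walk ends
    have e0 : a' ++ [n δ (NT.wa d), n δ (NT.re d)] ++ b' =
      (a' ++ [n δ (NT.wa d)]) ++ n δ (NT.re d) :: b' := by simp
    rw [e0] at he
    obtain ⟨h1, h2, h3⟩ := inv_match hf (Or.inr (Or.inr (Or.inr (Or.inl ⟨_, rfl⟩)))) he.symm
    cases hf with
    | start => simp [n] at h2
    | st w q r h => simp [n] at h2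
    | wk w d r1 r2 h => simp [n] at h2
    | fin w k r h => simp [n] at h2
    | re w d' r1 r2 h =>
      simp only [n, Symbol.nonterminal.injEq, NT.re.injEq] at h2
      subst h2
      subst h3
      obtain ⟨rfl, _, rfl⟩ := snoc_inv' h1
      refine Or.inl ⟨_, _, _, Form.st w d'.1.2.2 (none :: r2) ?_, by simp [R]⟩
      have := cn_none [] r2
      rw [List.nil_append, List.nil_append] at this
      rw [this]
      simpa using h
  · -- the final phase starts
    have e0 : a' ++ [n δ (NT.st qf)] ++ b' = a' ++ n δ (NT.st qf) :: b' := by simp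
    rw [e0] at he
    obtain ⟨rfl, h2, rfl⟩ := inv_match hf (Or.inr (Or.inl ⟨_, rfl⟩)) he.symm
    cases hf with
    | start => simp [n] at h2
    | wk w d r1 r2 h => simp [n] at h2
    | re w d r1 r2 h => simp [n] at h2
    | fin w k r h => simp [n] at h2
    | st w q r h =>
      simp only [n, Symbol.nonterminal.injEq, NT.st.injEq] at h2
      subst h2
      exact Or.inl ⟨_, _, _, Form.fin w 0 r h, by simp [Pd]⟩
  · -- the final phase moves
    have e0 : a' ++ [n δ NT.fin, reg δ none] ++ b' =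
      a' ++ n δ NT.fin :: (reg δ none :: b') := by simp
    rw [e0] at he
    obtain ⟨rfl, h2, h3⟩ := inv_match hf (Or.inr (Or.inr (Or.inr (Or.inr rfl)))) he.symm
    cases hf with
    | start => simp [n] at h2
    | st w q r h => simp [n] at h2
    | wk w d r1 r2 h => simp [n] at h2
    | re w d r1 r2 h => simp [n] at h2
    | fin w k r h =>
      obtain ⟨r', rfl, rfl⟩ := R_cons_inv h3
      refine Or.inl ⟨_, _, _, Form.fin w (k + 1) r' ?_, ?_⟩
      · have := cn_none [] r'
        rw [List.nil_append, List.nil_append] at this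
        rwa [this] at h
      · rw [Pd, Pd, List.replicate_succ']
        simp [reg]
  · -- the final phase ends
    have e0 : a' ++ [n δ NT.fin, n δ NT.en] ++ b' =
      a' ++ n δ NT.fin :: (n δ NT.en :: b') := by simp
    rw [e0] at he
    obtain ⟨rfl, h2, h3⟩ := inv_match hf (Or.inr (Or.inr (Or.inr (Or.inr rfl)))) he.symm
    cases hf with
    | start => simp [n] at h2
    | st w q r h => simp [n] at h2
    | wk w d r1 r2 h => simp [n] at h2
    | re w d r1 r2 h => simp [n] at h2
    | fin w k r h =>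
      obtain ⟨rfl, rfl⟩ := R_en_inv h3
      rw [cn_nil] at h
      refine Or.inr ⟨w, k + 2, ?_, h⟩
      rw [Pd, Pd, List.replicate_add]
      simp [reg, List.replicate_succ]

/-! ### construction of derivations -/

/-- derivability -/
def Der (δ : Set (Q × Op T K × Q)) (q0 qf : Q) (α β : List (S δ)) : Prop :=
  ReflTransGen (St δ q0 qf) α β

omit [DecidableEq K] in
theorem st_ctx (a b : List (S δ)) {l r : List (S δ)} (h : (l, r) ∈ rules δ q0 qf) :
    Der δ q0 qf (a ++ l ++ b) (a ++ r ++ b) :=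
  ReflTransGen.single ⟨a, b, l, r, h, rfl, rfl⟩

omit [DecidableEq K] in
theorem der_walk (d : E δ) (r : List (Option K)) (a b : List (S δ))
    (h : ∀ i, d.1.2.1 = Op.zero i → some i ∉ r) :
    Der δ q0 qf (a ++ n δ (NT.wk d) :: (R δ r ++ b)) (a ++ R δ r ++ n δ (NT.wk d) :: b) := by
  induction r generalizing a with
  | nil =>
    have : a ++ R δ [] ++ n δ (NT.wk d) :: b = a ++ n δ (NT.wk d) :: (R δ [] ++ b) := by simp [R]
    rw [this]
    exact ReflTransGen.refl
  | cons x r ih =>
    have h1 := ih (a ++ [reg δ x]) (fun i hi hm => h i hi (List.mem_cons_of_mem _ hm))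
    have h2 := st_ctx (q0 := q0) (qf := qf) a (R δ r ++ b)
      (l := [n δ (NT.wk d), reg δ x]) (r := [reg δ x, n δ (NT.wk d)])
      (Or.inr (Or.inr (Or.inl ⟨d, x, fun i hi hx => h i hi (by simp [hx]), rfl⟩)))
    have e1 : a ++ n δ (NT.wk d) :: (R δ (x :: r) ++ b) =
        a ++ [n δ (NT.wk d), reg δ x] ++ (R δ r ++ b) := by simp [R]
    have e2 : a ++ [reg δ x] ++ n δ (NT.wk d) :: (R δ r ++ b) =
        a ++ [reg δ x, n δ (NT.wk d)] ++ (R δ r ++ b) := by simp
    have e3 : a ++ [reg δ x] ++ R δ r ++ n δ (NT.wk d) :: b =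
        a ++ R δ (x :: r) ++ n δ (NT.wk d) :: b := by simp [R]
    rw [e1]
    rw [e2, e3] at h1
    exact ReflTransGen.trans h2 h1

omit [DecidableEq K] in
theorem der_return (d : E δ) (r : List (Option K)) (a b : List (S δ)) :
    Der δ q0 qf (a ++ R δ r ++ n δ (NT.re d) :: b) (a ++ n δ (NT.re d) :: (R δ r ++ b)) := by
  induction r using List.reverseRecOn generalizing b with
  | nil =>
    have : a ++ R δ [] ++ n δ (NT.re d) :: b = a ++ n δ (NT.re d) :: (R δ [] ++ b) := by simp [R]
    rw [this]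
    exact ReflTransGen.refl
  | append_singleton r x ih =>
    have h1 := ih (reg δ x :: b)
    have h2 := st_ctx (q0 := q0) (qf := qf) (a ++ R δ r) b
      (l := [reg δ x, n δ (NT.re d)]) (r := [n δ (NT.re d), reg δ x])
      (Or.inr (Or.inr (Or.inr (Or.inr (Or.inr (Or.inl ⟨d, x, rfl⟩))))))
    have e1 : a ++ R δ (r ++ [x]) ++ n δ (NT.re d) :: b =
        a ++ R δ r ++ [reg δ x, n δ (NT.re d)] ++ b := by simp [R]
    have e2 : a ++ R δ r ++ n δ (NT.re d) :: (reg δ x :: b) =
        a ++ R δ r ++ [n δ (NT.re d), reg δ x] ++ b := by simp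
    have e3 : a ++ n δ (NT.re d) :: (R δ r ++ reg δ x :: b) =
        a ++ n δ (NT.re d) :: (R δ (r ++ [x]) ++ b) := by simp [R]
    rw [e1]
    rw [e2, e3] at h1
    exact ReflTransGen.trans h2 h1

/-- the end of a return walk -/
theorem der_absorb (d : E δ) (r : List (Option K)) (w : List T) (b : List (S δ)) :
    Der δ q0 qf (O δ w ++ [n δ (NT.wa d)] ++ R δ r ++ n δ (NT.re d) :: b)
      (O δ w ++ n δ (NT.st d.1.2.2) :: (R δ (none :: r) ++ b)) := by
  have h1 := der_return (q0 := q0) (qf := qf) d r (O δ w ++ [n δ (NT.wa d)]) b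
  have h2 := st_ctx (q0 := q0) (qf := qf) (O δ w) (R δ r ++ b)
      (l := [n δ (NT.wa d), n δ (NT.re d)]) (r := [n δ (NT.st d.1.2.2), reg δ none])
      (Or.inr (Or.inr (Or.inr (Or.inr (Or.inr (Or.inr (Or.inl ⟨d, rfl⟩)))))))
  have e1 : O δ w ++ [n δ (NT.wa d)] ++ n δ (NT.re d) :: (R δ r ++ b) =
      O δ w ++ [n δ (NT.wa d), n δ (NT.re d)] ++ (R δ r ++ b) := by simp
  have e2 : O δ w ++ n δ (NT.st d.1.2.2) :: (R δ (none :: r) ++ b) =
      O δ w ++ [n δ (NT.st d.1.2.2), reg δ none] ++ (R δ r ++ b) := by simp [R]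
  rw [e1] at h1
  rw [e2]
  exact ReflTransGen.trans h1 h2

/-- the beginning of a walk -/
theorem der_begin (d : E δ) (hd : ∃ i, d.1.2.1 = Op.zero i ∨ d.1.2.1 = Op.dec i) (w : List T)
    (b : List (S δ)) :
    Der δ q0 qf (O δ w ++ n δ (NT.st d.1.1) :: b)
      (O δ w ++ [n δ (NT.wa d)] ++ n δ (NT.wk d) :: b) := by
  have h1 : res δ d = [n δ (NT.wa d), n δ (NT.wk d)] := by
    obtain ⟨i, h | h⟩ := hd <;> simp [res, h]
  have h2 := st_ctx (q0 := q0) (qf := qf) (O δ w) b
      (l := [n δ (NT.st d.1.1)]) (r := res δ d) (Or.inr (Or.inl ⟨d, rfl⟩))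
  rw [h1] at h2
  simpa using h2

/-- a walk through the whole region -/
theorem der_full (d : E δ) (hd : ∃ i, d.1.2.1 = Op.zero i ∨ d.1.2.1 = Op.dec i) (w : List T)
    (r : List (Option K)) (h : ∀ i, d.1.2.1 = Op.zero i → some i ∉ r) :
    Der δ q0 qf (O δ w ++ n δ (NT.st d.1.1) :: (R δ r ++ [n δ NT.en]))
      (O δ w ++ n δ (NT.st d.1.2.2) :: (R δ (none :: r) ++ [n δ NT.en])) := by
  have h1 := der_begin (q0 := q0) (qf := qf) d hd w (R δ r ++ [n δ NT.en])
  have h2 := der_walk (q0 := q0) (qf := qf) d r (O δ w ++ [n δ (NT.wa d)]) [n δ NT.en] h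
  have h3 := st_ctx (q0 := q0) (qf := qf) (O δ w ++ [n δ (NT.wa d)] ++ R δ r) []
      (l := [n δ (NT.wk d), n δ NT.en]) (r := [n δ (NT.re d), n δ NT.en])
      (Or.inr (Or.inr (Or.inr (Or.inr (Or.inl ⟨d, rfl⟩)))))
  have h4 := der_absorb (q0 := q0) (qf := qf) d r w [n δ NT.en]
  rw [List.append_nil, List.append_nil] at h3
  exact ReflTransGen.trans h1 (ReflTransGen.trans h2 (ReflTransGen.trans h3 h4))

/-- a decrement -/
theorem der_decr (d : E δ) (i : K) (hd : d.1.2.1 = Op.dec i) (w : List T)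
    (a b : List (Option K)) :
    Der δ q0 qf (O δ w ++ n δ (NT.st d.1.1) :: (R δ (a ++ some i :: b) ++ [n δ NT.en]))
      (O δ w ++ n δ (NT.st d.1.2.2) :: (R δ (none :: (a ++ none :: b)) ++ [n δ NT.en])) := by
  have h1 := der_begin (q0 := q0) (qf := qf) d ⟨i, Or.inr hd⟩ w
    (R δ (a ++ some i :: b) ++ [n δ NT.en])
  have h2 := der_walk (q0 := q0) (qf := qf) d a (O δ w ++ [n δ (NT.wa d)])
    (R δ (some i :: b) ++ [n δ NT.en]) (by
      intro j hj
      rw [hd] at hj
      simp at hj)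
  have h3 := st_ctx (q0 := q0) (qf := qf) (O δ w ++ [n δ (NT.wa d)] ++ R δ a)
      (R δ b ++ [n δ NT.en])
      (l := [n δ (NT.wk d), reg δ (some i)]) (r := [n δ (NT.re d), reg δ none])
      (Or.inr (Or.inr (Or.inr (Or.inl ⟨d, i, hd, rfl⟩))))
  have h4 := der_absorb (q0 := q0) (qf := qf) d a w (R δ (none :: b) ++ [n δ NT.en])
  have e1 : O δ w ++ [n δ (NT.wa d)] ++ n δ (NT.wk d) :: (R δ (a ++ some i :: b) ++ [n δ NT.en]) =
      O δ w ++ [n δ (NT.wa d)] ++ n δ (NT.wk d) :: (R δ a ++ (R δ (some i :: b) ++ [n δ NT.en])) := by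
    simp [R]
  rw [e1] at h1
  have e2 : O δ w ++ [n δ (NT.wa d)] ++ R δ a ++ n δ (NT.wk d) :: (R δ (some i :: b) ++ [n δ NT.en]) =
      O δ w ++ [n δ (NT.wa d)] ++ R δ a ++ [n δ (NT.wk d), reg δ (some i)] ++
        (R δ b ++ [n δ NT.en]) := by simp [R]
  rw [e2] at h2
  have e3 : O δ w ++ [n δ (NT.wa d)] ++ R δ a ++ n δ (NT.re d) :: (R δ (none :: b) ++ [n δ NT.en]) =
      O δ w ++ [n δ (NT.wa d)] ++ R δ a ++ [n δ (NT.re d), reg δ none] ++
        (R δ b ++ [n δ NT.en]) := by simp [R]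
  rw [e3] at h4
  have e4 : O δ w ++ n δ (NT.st d.1.2.2) :: (R δ (none :: (a ++ none :: b)) ++ [n δ NT.en]) =
      O δ w ++ n δ (NT.st d.1.2.2) :: (R δ (none :: a) ++ (R δ (none :: b) ++ [n δ NT.en])) := by
    simp [R]
  rw [e4]
  exact ReflTransGen.trans h1 (ReflTransGen.trans h2 (ReflTransGen.trans h3 h4))

theorem cn_none' (r : List (Option K)) : cn (none :: r) = cn r := by
  have := cn_none [] r
  simpa using this

theorem der_of_path {q q' : Q} {s s' : K → ℕ} {w : List T}
    (h : Pool.Agent.W937.FG.Path true δ q s w q' s') :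
    ∀ (r : List (Option K)) (w0 : List T), cn r = s → ∃ r', cn r' = s' ∧
      Der δ q0 qf (O δ w0 ++ n δ (NT.st q) :: (R δ r ++ [n δ NT.en]))
        (O δ (w0 ++ w) ++ n δ (NT.st q') :: (R δ r' ++ [n δ NT.en])) := by
  induction h with
  | refl q s =>
    intro r w0 hr
    refine ⟨r, hr, ?_⟩
    rw [List.append_nil]
    exact ReflTransGen.refl
  | step hd h1 h2 ih =>
    rename_i q q' q'' o s s' s'' w x
    intro r w0 hr
    subst hr
    have key : ∀ r', cn r' = s' →
        Der δ q0 qf (O δ w0 ++ n δ (NT.st q) :: (R δ r ++ [n δ NT.en]))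
          (O δ (w0 ++ w) ++ n δ (NT.st q') :: (R δ r' ++ [n δ NT.en])) →
        ∃ r'', cn r'' = s'' ∧
          Der δ q0 qf (O δ w0 ++ n δ (NT.st q) :: (R δ r ++ [n δ NT.en]))
            (O δ (w0 ++ (w ++ x)) ++ n δ (NT.st q'') :: (R δ r'' ++ [n δ NT.en])) := by
      intro r' h3 h4
      obtain ⟨r'', h5, h6⟩ := ih r' (w0 ++ w) h3
      refine ⟨r'', h5, ?_⟩
      rw [← List.append_assoc]
      exact ReflTransGen.trans h4 h6
    cases o with
    | nop =>
      obtain ⟨rfl, rfl⟩ := h1
      refine key r rfl ?_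
      have := st_ctx (q0 := q0) (qf := qf) (O δ w0) (R δ r ++ [n δ NT.en])
        (l := [n δ (NT.st q)]) (r := [n δ (NT.st q')])
        (Or.inr (Or.inl ⟨⟨(q, Op.nop, q'), hd⟩, rfl⟩))
      simpa using this
    | inc i =>
      obtain ⟨rfl, rfl⟩ := h1
      refine key (some i :: r) (cn_cons i r) ?_
      have := st_ctx (q0 := q0) (qf := qf) (O δ w0) (R δ r ++ [n δ NT.en])
        (l := [n δ (NT.st q)]) (r := [n δ (NT.st q'), n δ (NT.cnt i)])
        (Or.inr (Or.inl ⟨⟨(q, Op.inc i, q'), hd⟩, rfl⟩))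
      have e1 : O δ (w0 ++ []) ++ n δ (NT.st q') :: (R δ (some i :: r) ++ [n δ NT.en]) =
          O δ w0 ++ [n δ (NT.st q'), n δ (NT.cnt i)] ++ (R δ r ++ [n δ NT.en]) := by
        simp [R, reg]
      rw [e1]
      simpa using this
    | dec i =>
      obtain ⟨rfl, ⟨h3, rfl⟩ | ⟨_, rfl⟩⟩ := h1
      · have h4 : some i ∈ r := List.count_pos_iff.mp h3
        obtain ⟨a, b, rfl⟩ := List.append_of_mem h4
        refine key (none :: (a ++ none :: b)) ?_ ?_
        · rw [cn_none']
          exact (cn_dec i a b).2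
        · have := der_decr (q0 := q0) (qf := qf) ⟨(q, Op.dec i, q'), hd⟩ i rfl w0 a b
          simpa using this
      · refine key (none :: r) (cn_none' r) ?_
        have := der_full (q0 := q0) (qf := qf) ⟨(q, Op.dec i, q'), hd⟩ ⟨i, Or.inr rfl⟩ w0 r
          (by simp)
        simpa using this
    | zero i =>
      obtain ⟨rfl, h3, rfl⟩ := h1
      refine key (none :: r) (cn_none' r) ?_
      have := der_full (q0 := q0) (qf := qf) ⟨(q, Op.zero i, q'), hd⟩ ⟨i, Or.inl rfl⟩ w0 r
        (by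
          intro j hj
          have hj' : Op.zero i = (Op.zero j : Op T K) := hj
          simp only [Op.zero.injEq] at hj'
          subst hj'
          exact List.count_eq_zero.mp h3)
      simpa using this
    | out c =>
      obtain ⟨rfl, rfl⟩ := h1
      refine key r rfl ?_
      have := st_ctx (q0 := q0) (qf := qf) (O δ w0) (R δ r ++ [n δ NT.en])
        (l := [n δ (NT.st q)]) (r := [Symbol.terminal (some c), n δ (NT.st q')])
        (Or.inr (Or.inl ⟨⟨(q, Op.out c, q'), hd⟩, rfl⟩))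
      have e1 : O δ (w0 ++ [c]) ++ n δ (NT.st q') :: (R δ r ++ [n δ NT.en]) =
          O δ w0 ++ [Symbol.terminal (some c), n δ (NT.st q')] ++ (R δ r ++ [n δ NT.en]) := by
        simp [O]
      rw [e1]
      simpa using this

omit [DecidableEq K] in
theorem der_final (k : ℕ) (a : List (S δ)) :
    Der δ q0 qf (a ++ n δ NT.fin :: (R δ (List.replicate k none) ++ [n δ NT.en]))
      (a ++ Pd δ (k + 2)) := by
  induction k generalizing a with
  | zero =>
    have := st_ctx (q0 := q0) (qf := qf) a [] (l := [n δ NT.fin, n δ NT.en])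
      (r := [reg δ none, reg δ none])
      (Or.inr (Or.inr (Or.inr (Or.inr (Or.inr (Or.inr (Or.inr (Or.inr (Or.inr rfl)))))))))
    rw [List.append_nil, List.append_nil] at this
    exact this
  | succ k ih =>
    have h1 := ih (a ++ [reg δ none])
    have h2 := st_ctx (q0 := q0) (qf := qf) a (R δ (List.replicate k none) ++ [n δ NT.en])
      (l := [n δ NT.fin, reg δ none]) (r := [reg δ none, n δ NT.fin])
      (Or.inr (Or.inr (Or.inr (Or.inr (Or.inr (Or.inr (Or.inr (Or.inr (Or.inl rfl)))))))))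
    have e1 : a ++ n δ NT.fin :: (R δ (List.replicate (k + 1) none) ++ [n δ NT.en]) =
        a ++ [n δ NT.fin, reg δ none] ++ (R δ (List.replicate k none) ++ [n δ NT.en]) := by
      simp [R, List.replicate_succ]
    have e2 : a ++ [reg δ none] ++ n δ NT.fin :: (R δ (List.replicate k none) ++ [n δ NT.en]) =
        a ++ [reg δ none, n δ NT.fin] ++ (R δ (List.replicate k none) ++ [n δ NT.en]) := by
      simp
    have e3 : a ++ [reg δ none] ++ Pd δ (k + 2) = a ++ Pd δ (k + 1 + 2) := by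
      have : Pd δ (k + 1 + 2) = [reg δ none] ++ Pd δ (k + 2) := by
        simp [Pd, reg, List.replicate_succ]
      rw [this, List.append_assoc]
    rw [e1]
    rw [e2, e3] at h1
    exact ReflTransGen.trans h2 h1

section final

variable [Finite K] [Finite Q] (q0) (qf) (hδ : δ.Finite)

omit [DecidableEq K] in
theorem map_some_reduce (w : List T) (k : ℕ) :
    (w.map some ++ List.replicate k none).reduceOption = w := by
  rw [List.reduceOption_append]
  have h1 : (w.map some).reduceOption = w := by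
    induction w with
    | nil => rfl
    | cons x w ih => simp [ih]
  rw [h1, List.reduceOption_replicate_none, List.append_nil]

theorem sound (v : List (Option T)) (hv : v ∈ (G δ q0 qf hδ).language) :
    Pool.Agent.W937.FG.Path true δ q0 (fun _ => 0) v.reduceOption qf (fun _ => 0) := by
  have key : ∀ α : List (S δ), ReflTransGen (St δ q0 qf) [n δ NT.start] α → Inv δ q0 qf α := by
    intro α hα
    induction hα with
    | refl => exact Or.inl ⟨[], _, [], Form.start, rfl⟩
    | tail _ h2 ih => exact inv_step ih h2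
  have h1 : Inv δ q0 qf (v.map Symbol.terminal) := key _ hv
  rcases h1 with ⟨a, h, b, hf, he⟩ | ⟨w, k, he, hp⟩
  · exfalso
    have h2 : h ∈ v.map Symbol.terminal := by
      rw [he]
      simp
    obtain ⟨t, _, rfl⟩ := List.mem_map.mp h2
    cases hf
  · have h2 : v = w.map some ++ List.replicate k none := by
      have h3 : (w.map some ++ List.replicate k none).map
          (Symbol.terminal : Option T → S δ) = O δ w ++ Pd δ k := by
        simp [O, Pd]
      rw [← h3] at he
      refine List.map_injective_iff.mpr ?_ he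
      intro x y hxy
      simpa using hxy
    rw [h2, map_some_reduce]
    exact hp

theorem complete (w : List T)
    (hw : Pool.Agent.W937.FG.Path true δ q0 (fun _ => 0) w qf (fun _ => 0)) :
    ∃ v ∈ (G δ q0 qf hδ).language, v.reduceOption = w := by
  obtain ⟨r, h1, h2⟩ := der_of_path (q0 := q0) (qf := qf) hw [] [] cn_nil
  have h3 : r = List.replicate r.length none := by
    rw [List.eq_replicate_iff]
    refine ⟨rfl, fun x hx => ?_⟩
    cases x with
    | none => rfl
    | some i =>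
      exfalso
      have := congrFun h1 i
      have h4 : 0 < r.count (some i) := List.count_pos_iff.mpr hx
      simp only [cn] at this
      omega
  have h0 := st_ctx (δ := δ) (q0 := q0) (qf := qf) [] [] (l := [n δ NT.start])
    (r := [n δ (NT.st q0), n δ NT.en]) (Or.inl rfl)
  have h4 := st_ctx (q0 := q0) (qf := qf) (O δ w) (R δ r ++ [n δ NT.en])
    (l := [n δ (NT.st qf)]) (r := [n δ NT.fin])
    (Or.inr (Or.inr (Or.inr (Or.inr (Or.inr (Or.inr (Or.inr (Or.inl rfl))))))))
  rw [h3] at h2 h4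
  have h5 := der_final (δ := δ) (q0 := q0) (qf := qf) r.length (O δ w)
  refine ⟨w.map some ++ List.replicate (r.length + 2) none, ?_, map_some_reduce w _⟩
  have h4' : Der δ q0 qf
      (O δ w ++ n δ (NT.st qf) :: (R δ (List.replicate r.length none) ++ [n δ NT.en]))
      (O δ w ++ n δ NT.fin :: (R δ (List.replicate r.length none) ++ [n δ NT.en])) := by
    simpa using h4
  have h6 : Der δ q0 qf [n δ NT.start] (O δ w ++ Pd δ (r.length + 2)) :=
    ReflTransGen.trans h0 (ReflTransGen.trans h2 (ReflTransGen.trans h4' h5))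
  have h7 : (w.map some ++ List.replicate (r.length + 2) none).map
          (Symbol.terminal : Option T → S δ) = O δ w ++ Pd δ (r.length + 2) := by
    simp [O, Pd]
  rw [← h7] at h6
  exact h6

end final

end gram

end Pool.Agent.R574.CA.Pad
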